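import Pool.Agent.helper36.MP.SpecZ

/-!
# Project mp: (MP_af9036_an): module FD (helper91)
-/

set_option autoImplicit false

open Complex Metric Set Filter Topology MeasureTheory

noncomputable section

namespace MPS

open Pool.Agent.helper16.Multibrot

lemma FD_escape {n : ℕ} (hn : 2 ≤ n) {c : ℂ} (hc : 2 < ‖c‖) :
    Tendsto (fun k : ℕ => ‖(fun z : ℂ => z ^ n + c)^[k] 0‖) atTop atTop := by
  -- q = ‖c‖ - 1 > 1, ‖z_{k+1}‖ ≥ q ^ k ‖c‖
  set q : ℝ := ‖c‖ - 1 with hq
  have hq1 : 1 < q := by rw [hq]; linarith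
  have key : ∀ k : ℕ, q ^ k * ‖c‖ ≤ ‖(fun z : ℂ => z ^ n + c)^[k + 1] 0‖ := by
    intro k
    induction k with
    | zero =>
      simp [show n ≠ 0 by omega]
    | succ k ih =>
      rw [Function.iterate_succ_apply']
      set w := (fun z : ℂ => z ^ n + c)^[k + 1] 0 with hw
      have hqk : 1 ≤ q ^ k := one_le_pow₀ hq1.le
      have hwc : ‖c‖ ≤ ‖w‖ := by
        calc ‖c‖ = 1 * ‖c‖ := (one_mul _).symm
          _ ≤ q ^ k * ‖c‖ := by gcongr
          _ ≤ ‖w‖ := ih
      have h1 : ‖w‖ ^ 2 ≤ ‖w‖ ^ n := by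
        apply pow_le_pow_right₀ _ hn
        linarith
      have h2 : ‖w‖ ^ n - ‖c‖ ≤ ‖w ^ n + c‖ := by
        have := norm_sub_le (w ^ n + c) c
        rw [add_sub_cancel_right, norm_pow] at this
        linarith
      have h3 : q * ‖w‖ ≤ ‖w ^ n + c‖ := by
        have : q * ‖w‖ ≤ ‖w‖ ^ 2 - ‖c‖ := by
          rw [hq]
          nlinarith
        linarith
      calc q ^ (k + 1) * ‖c‖ = q * (q ^ k * ‖c‖) := by ring
        _ ≤ q * ‖w‖ := by gcongr
        _ ≤ _ := h3
  rw [← tendsto_add_atTop_iff_nat 1]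
  refine tendsto_atTop_mono key ?_
  exact Tendsto.atTop_mul_const (by linarith) (tendsto_pow_atTop_atTop_of_one_lt hq1)

lemma FD_norm {n : ℕ} (hn : 2 ≤ n) {c : ℂ} (hc : c ∈ multibrot n) : ‖c‖ ≤ 2 := by
  by_contra h
  push Not at h
  exact hc (FD_escape hn h)

lemma FD_zero {n : ℕ} (hn : 2 ≤ n) : (0 : ℂ) ∈ hyperbolic n := by
  refine ⟨0, 1, one_pos, ?_, ?_⟩
  · simp [show n ≠ 0 by omega]
  · rw [Function.iterate_one]
    have : HasDerivAt (fun w : ℂ => w ^ n + 0) ((n : ℂ) * 0 ^ (n - 1)) 0 := by
      simpa using (hasDerivAt_pow n (0 : ℂ)).add_const 0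
    rw [this.deriv]
    simp [show n - 1 ≠ 0 by omega]

theorem FD (hB : FB_stmt) : FD_stmt := by
  intro n hn d hd
  obtain ⟨ε, hε, h⟩ := hB n hn d hd
  refine ⟨2 / ε + 1 / ε, ?_⟩
  intro c hc k z hk hz hm hs
  set l := Real.log ‖mlt n k c z‖ with hl
  have hl0 : 0 < l := Real.log_pos hm
  have h2 : infDist c (hyperbolic n) ≤ 2 := by
    have := infDist_le_dist_of_mem (x := c) (FD_zero hn)
    rw [dist_zero_right] at this
    exact this.trans (FD_norm hn hc)
  rcases le_or_gt ε l with h3 | h3
  · have h4 : 2 ≤ 2 / ε * l := by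
      rw [div_mul_eq_mul_div, le_div_iff₀ hε]
      nlinarith
    have h5 : 0 ≤ 1 / ε * l := by positivity
    calc infDist c (hyperbolic n) ≤ 2 := h2
      _ ≤ 2 / ε * l + 1 / ε * l := by linarith
      _ = _ := by ring
  · have h4 : infDist c (hyperbolic n) ≤ l / ε := by
      apply le_of_forall_gt_imp_ge_of_dense
      intro r hr
      rcases le_or_gt r 1 with hr1 | hr1
      · have hr0 : 0 < r := lt_trans (by positivity) hr
        by_contra hcon
        push Not at hcon
        have hdis : Disjoint (ball c r) (hyperbolic n) := by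
          rw [Set.disjoint_left]
          intro y hy hy'
          have h5 : infDist c (hyperbolic n) ≤ dist c y := infDist_le_dist_of_mem hy'
          rw [mem_ball, dist_comm] at hy
          linarith
        have h6 := h c r hr0 hr1 hdis k z hk hz hs
        rw [div_lt_iff₀ hε] at hr
        rw [← hl] at h6
        linarith
      · -- r > 1 : use radius between l / ε and 1
        have h7 : l / ε < 1 := by rw [div_lt_one hε]; exact h3
        by_contra hcon
        push Not at hcon
        have hdis : Disjoint (ball c 1) (hyperbolic n) := by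
          rw [Set.disjoint_left]
          intro y hy hy'
          have h5 : infDist c (hyperbolic n) ≤ dist c y := infDist_le_dist_of_mem hy'
          rw [mem_ball, dist_comm] at hy
          linarith
        have h6 := h c 1 one_pos le_rfl hdis k z hk hz hs
        rw [← hl] at h6
        linarith
    have h8 : 0 ≤ 2 / ε * l := by positivity
    calc infDist c (hyperbolic n) ≤ l / ε := h4
      _ ≤ 2 / ε * l + 1 / ε * l := by
        have : 1 / ε * l = l / ε := by ring
        linarith
      _ = _ := by ring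

end MPS
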