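import Pool.Agent.helper36.MP.SpecP

/-! HMX of project mp (MP_af9036_an): Schwarz lemma for sums of moduli. -/

set_option autoImplicit false

open Complex Metric Set Filter Topology MeasureTheory

noncomputable section

namespace MPS

theorem HMX_one (g : ℂ → ℂ) (r r' M : ℝ) (h0 : 0 < r') (h1 : r' < r)
    (hg : DifferentiableOn ℂ g (ball 0 r)) (hg0 : g 0 = 0)
    (hM : ∀ u : ℂ, ‖u‖ = r' → ‖g u‖ ≤ M) (u : ℂ) (hu : ‖u‖ ≤ r') :
    ‖g u‖ ≤ M * ‖u‖ / r' := by
  have hr : 0 < r := h0.trans h1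
  have hd : DifferentiableOn ℂ (dslope g 0) (ball 0 r) :=
    (Complex.differentiableOn_dslope (ball_mem_nhds 0 hr)).2 hg
  have hcl : closure (ball (0 : ℂ) r') ⊆ ball 0 r := by
    rw [closure_ball _ h0.ne']
    exact closedBall_subset_ball h1
  have hdc : DiffContOnCl ℂ (dslope g 0) (ball 0 r') := (hd.mono hcl).diffContOnCl
  have hfr : ∀ z ∈ frontier (ball (0 : ℂ) r'), ‖dslope g 0 z‖ ≤ M / r' := by
    intro z hz
    rw [frontier_ball _ h0.ne', mem_sphere_zero_iff_norm] at hz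
    have hz0 : z ≠ 0 := by
      intro h
      rw [h, norm_zero] at hz
      exact h0.ne hz
    rw [dslope_of_ne _ hz0, slope_def_field, hg0, sub_zero, sub_zero, norm_div, hz]
    exact div_le_div_of_nonneg_right (hM z hz) h0.le
  have hu' : u ∈ closure (ball (0 : ℂ) r') := by
    rw [closure_ball _ h0.ne', mem_closedBall_zero_iff]
    exact hu
  have hmain := Complex.norm_le_of_forall_mem_frontier_norm_le isBounded_ball hdc hfr hu'
  have he : g u = u * dslope g 0 u := by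
    by_cases hu0 : u = 0
    · rw [hu0, hg0, zero_mul]
    · rw [dslope_of_ne _ hu0, slope_def_field, hg0, sub_zero, sub_zero]
      field_simp
  rw [he, norm_mul]
  calc ‖u‖ * ‖dslope g 0 u‖ ≤ ‖u‖ * (M / r') := mul_le_mul_of_nonneg_left hmain (norm_nonneg u)
    _ = M * ‖u‖ / r' := by ring

theorem HMX_main : HMX_stmt := by
  intro ι s h r r' M h0 h1 hh hM u hu
  have hc : ∀ i, ∃ c : ℂ, ‖c‖ = 1 ∧ c * h i u = (‖h i u‖ : ℂ) := by
    intro i
    by_cases hz : h i u = 0
    · exact ⟨1, norm_one, by rw [hz]; simp⟩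
    · refine ⟨(‖h i u‖ : ℂ) / h i u, ?_, ?_⟩
      · rw [norm_div, Complex.norm_real, norm_norm, div_self (norm_ne_zero_iff.2 hz)]
      · field_simp
  choose c hc1 hc2 using hc
  have hg : DifferentiableOn ℂ (fun z => ∑ i ∈ s, c i * h i z) (ball 0 r) :=
    DifferentiableOn.fun_sum fun i hi => (hh i hi).1.const_mul (c i)
  have hg0 : (fun z => ∑ i ∈ s, c i * h i z) 0 = 0 := by
    refine Finset.sum_eq_zero fun i hi => ?_
    rw [(hh i hi).2, mul_zero]
  have hMg : ∀ v : ℂ, ‖v‖ = r' → ‖(fun z => ∑ i ∈ s, c i * h i z) v‖ ≤ M := by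
    intro v hv
    refine le_trans (norm_sum_le _ _) (le_trans (Finset.sum_le_sum fun i _ => ?_) (hM v hv))
    rw [norm_mul, hc1, one_mul]
  have hmain := HMX_one _ r r' M h0 h1 hg hg0 hMg u hu
  have he : ∑ i ∈ s, c i * h i u = ((∑ i ∈ s, ‖h i u‖ : ℝ) : ℂ) := by
    push_cast
    exact Finset.sum_congr rfl fun i _ => hc2 i
  rw [he, Complex.norm_real, Real.norm_eq_abs, abs_of_nonneg (Finset.sum_nonneg fun i _ =>
    norm_nonneg _)] at hmain
  exact hmain

end MPS
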