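import Pool.Agent.helper36.MP.SpecN

/-! TBD of project mp (MP_af9036_an): cycles and preimages of discs stay in the disc of radius 4. -/

set_option autoImplicit false

open Complex Metric Set Filter Topology MeasureTheory

noncomputable section

namespace MPS

theorem TBD_grow (n : ℕ) (c : ℂ) (hn : 2 ≤ n) (hc : ‖c‖ ≤ 3) (z : ℂ) (hz : 4 ≤ ‖z‖) :
    ‖z‖ + 9 ≤ ‖z ^ n + c‖ := by
  have h1 : ‖z‖ ^ 2 ≤ ‖z‖ ^ n := pow_le_pow_right₀ (by linarith) hn
  have h2 : ‖z ^ n‖ ≤ ‖z ^ n + c‖ + ‖c‖ := by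
    have h := norm_sub_le (z ^ n + c) c
    rwa [add_sub_cancel_right] at h
  rw [norm_pow] at h2
  nlinarith

theorem TBD_main : TBD_stmt := by
  intro n c hn hc
  refine ⟨fun z hz => TBD_grow n c hn hc z hz, ?_, ?_⟩
  · intro R y hR h
    by_contra hy
    push Not at hy
    have h1 := TBD_grow n c hn hc y (le_trans hR hy)
    linarith
  · intro k _ b hb j
    obtain ⟨j0, hj0⟩ := Finite.exists_max (fun i : ZMod k => ‖b i‖)
    by_contra hj
    push Not at hj
    have h1 := TBD_grow n c hn hc (b j0) (le_trans hj (hj0 j))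
    rw [hb.step] at h1
    have h2 := hj0 (j0 + 1)
    linarith

end MPS
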